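import Mathlib

namespace Pool.Agent.H.MP_665542_gt

open Set Filter Topology
open scoped ContDiff RealInnerProductSpace

abbrev P := ℝ × ℝ
abbrev V := EuclideanSpace ℝ (Fin 3)

noncomputable def D (e : P) (g : P → V) : P → V := fun p => fderiv ℝ g p e

variable {g h f n : P → V}

theorem D_smooth (hg : ContDiff ℝ ∞ g) (e : P) : ContDiff ℝ ∞ (D e g) :=
  (hg.fderiv_right (m := ∞) (by simp)).clm_apply contDiff_const

theorem D_key (hg : ContDiff ℝ ∞ g) (e e' p : P) :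
    D e (D e' g) p = fderiv ℝ (fderiv ℝ g) p e e' := by
  have h2 : DifferentiableAt ℝ (fderiv ℝ g) p :=
    ((hg.fderiv_right (m := ∞) (by simp)).differentiable (by simp)) p
  unfold D
  rw [fderiv_clm_apply h2 (differentiableAt_const _)]
  simp

theorem D_comm (hg : ContDiff ℝ ∞ g) (e e' : P) : D e (D e' g) = D e' (D e g) := by
  funext p
  rw [D_key hg, D_key hg]
  exact (hg.contDiffAt.isSymmSndFDerivAt (by simp; norm_cast)) e e'

theorem D_line (hg : ContDiff ℝ ∞ g) (e p : P) (s : ℝ) :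
    HasDerivAt (fun t : ℝ => g (p + t • e)) (D e g (p + s • e)) s := by
  have h1 : HasFDerivAt g (fderiv ℝ g (p + s • e)) (p + s • e) :=
    (hg.differentiable (by simp) _).hasFDerivAt
  have h2 : HasDerivAt (fun t : ℝ => p + t • e) e s := by
    simpa using ((hasDerivAt_id s).smul_const e).const_add p
  exact h1.comp_hasDerivAt s h2

theorem D_inner (hg : ContDiff ℝ ∞ g) (hh : ContDiff ℝ ∞ h) {φ φ' : ℝ → ℝ}
    (hφ : ∀ r, HasDerivAt φ (φ' r) r) (hc : ∀ p, ⟪g p, h p⟫ = φ p.1) (e p : P) :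
    ⟪D e g p, h p⟫ + ⟪g p, D e h p⟫ = φ' p.1 * e.1 := by
  have h1 := (D_line hg e p 0).inner ℝ (D_line hh e p 0)
  have h2 : HasDerivAt (fun s : ℝ => (p + s • e).1) e.1 0 := by
    simpa using ((hasDerivAt_id (0 : ℝ)).mul_const e.1).const_add p.1
  have h3 := (hφ _).comp (0 : ℝ) h2
  simp only [hc] at h1
  have := h1.unique h3
  simp only [zero_smul, add_zero] at this
  linarith

theorem D_inner0 (hg : ContDiff ℝ ∞ g) (hh : ContDiff ℝ ∞ h) {c : ℝ}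
    (hc : ∀ p, ⟪g p, h p⟫ = c) (e p : P) : ⟪D e g p, h p⟫ + ⟪g p, D e h p⟫ = 0 := by
  simpa using D_inner hg hh (φ := fun _ => c) (φ' := fun _ => 0) (fun r => hasDerivAt_const r c)
    hc e p

theorem second_nonpos {φ φ' : ℝ → ℝ} {d : ℝ} (h1 : ∀ s, HasDerivAt φ (φ' s) s)
    (h2 : HasDerivAt φ' d 0) (hm : IsLocalMax φ 0) : d ≤ 0 := by
  by_contra hd
  have e1 : deriv φ = φ' := funext fun s => (h1 s).deriv
  have hmin : IsLocalMin φ 0 := isLocalMin_of_deriv_deriv_pos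
    (by rw [e1, h2.deriv]; exact not_le.1 hd) hm.deriv_eq_zero (h1 0).continuousAt
  have e2 : φ =ᶠ[𝓝 0] fun _ => φ 0 := by
    filter_upwards [hm, hmin] with s a b using le_antisymm a b
  have e3 := e2.deriv.deriv_eq
  rw [e1, h2.deriv] at e3
  simp at e3
  exact hd e3.le

theorem frame (a b c : V) (haa : ⟪a, a⟫ = 1) (hbb : ⟪b, b⟫ = 1) (hcc : ⟪c, c⟫ = 1)
    (hab : ⟪a, b⟫ = 0) (hca : ⟪c, a⟫ = 0) (hcb : ⟪c, b⟫ = 0) :
    ∃ ε : OrthonormalBasis (Fin 3) ℝ V, ε 0 = a ∧ ε 1 = b ∧ ε 2 = c := by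
  have ho : Orthonormal ℝ ![a, b, c] := by
    rw [orthonormal_iff_ite]
    have hba : ⟪b, a⟫ = 0 := by rw [real_inner_comm, hab]
    have hac : ⟪a, c⟫ = 0 := by rw [real_inner_comm, hca]
    have hbc : ⟪b, c⟫ = 0 := by rw [real_inner_comm, hcb]
    intro i j
    fin_cases i <;> fin_cases j <;>
      simp [haa, hbb, hcc, hab, hca, hcb, hba, hac, hbc, -inner_self_eq_norm_sq_to_K]
  have hs : ⊤ ≤ Submodule.span ℝ (range ![a, b, c]) :=
    (ho.linearIndependent.span_eq_top_of_card_eq_finrank' (by simp)).ge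
  exact ⟨OrthonormalBasis.mk ho hs, by simp, by simp, by simp⟩

/-- The data: an isometric immersion of `dr² + W(r)² dθ²` with a unit normal field. -/
structure Dat (f n : P → V) (W W' W'' : ℝ → ℝ) : Prop where
  hf : ContDiff ℝ ∞ f
  hn : ContDiff ℝ ∞ n
  d1 : ∀ r, HasDerivAt W (W' r) r
  d2 : ∀ r, HasDerivAt W' (W'' r) r
  pos : ∀ r, 0 < W r
  e : ∀ p, ⟪D (1, 0) f p, D (1, 0) f p⟫ = 1
  ff : ∀ p, ⟪D (1, 0) f p, D (0, 1) f p⟫ = 0
  g : ∀ p, ⟪D (0, 1) f p, D (0, 1) f p⟫ = W p.1 * W p.1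
  n1 : ∀ p, ⟪n p, D (1, 0) f p⟫ = 0
  n2 : ∀ p, ⟪n p, D (0, 1) f p⟫ = 0
  nn : ∀ p, ⟪n p, n p⟫ = 1

variable {W W' W'' : ℝ → ℝ}

theorem Dat.frame (H : Dat f n W W' W'') (p : P) : ∃ ε : OrthonormalBasis (Fin 3) ℝ V,
    ε 0 = D (1, 0) f p ∧ ε 1 = (W p.1)⁻¹ • D (0, 1) f p ∧ ε 2 = n p := by
  have := (H.pos p.1).ne'
  refine MP_665542_gt.frame _ _ _ (H.e p) ?_ (H.nn p) ?_ (H.n1 p) ?_
  · rw [real_inner_smul_left, real_inner_smul_right, H.g]; field_simp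
  · rw [real_inner_smul_right, H.ff, mul_zero]
  · rw [real_inner_smul_right, H.n2, mul_zero]

theorem Dat.gauss (H : Dat f n W W' W'') (p : P) :
    ⟪n p, D (1, 0) (D (1, 0) f) p⟫ * ⟪n p, D (0, 1) (D (0, 1) f) p⟫ -
      ⟪n p, D (1, 0) (D (0, 1) f) p⟫ ^ 2 = -(W p.1 * W'' p.1) := by
  have s1 := D_smooth H.hf (1, 0)
  have s2 := D_smooth H.hf (0, 1)
  have c := D_comm H.hf (0, 1) (1, 0)
  have a1 : ∀ q, ⟪D (1, 0) (D (1, 0) f) q, D (1, 0) f q⟫ = 0 := fun q => by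
    have := D_inner0 s1 s1 H.e (1, 0) q
    rw [real_inner_comm (D (1, 0) (D (1, 0) f) q)] at this; linarith
  have a2 : ∀ q, ⟪D (1, 0) (D (0, 1) f) q, D (1, 0) f q⟫ = 0 := fun q => by
    have := D_inner0 s1 s1 H.e (0, 1) q
    rw [c, real_inner_comm (D (1, 0) (D (0, 1) f) q)] at this; linarith
  have a3 : ∀ q, ⟪D (1, 0) (D (0, 1) f) q, D (0, 1) f q⟫ = W q.1 * W' q.1 := fun q => by
    have := D_inner s2 s2 (fun r => (H.d1 r).mul (H.d1 r)) H.g (1, 0) q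
    rw [real_inner_comm (D (1, 0) (D (0, 1) f) q)] at this; linarith
  have a4 : ∀ q, ⟪D (0, 1) (D (0, 1) f) q, D (0, 1) f q⟫ = 0 := fun q => by
    have := D_inner s2 s2 (fun r => (H.d1 r).mul (H.d1 r)) H.g (0, 1) q
    rw [real_inner_comm (D (0, 1) (D (0, 1) f) q)] at this; linarith
  have a5 : ∀ q, ⟪D (1, 0) (D (1, 0) f) q, D (0, 1) f q⟫ = 0 := fun q => by
    have := D_inner0 s1 s2 H.ff (1, 0) q
    rw [real_inner_comm (D (1, 0) (D (0, 1) f) q), a2] at this; linarith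
  have a6 : ⟪D (0, 1) (D (0, 1) f) p, D (1, 0) f p⟫ = -(W p.1 * W' p.1) := by
    have := D_inner0 s1 s2 H.ff (0, 1) p
    rw [c, a3, real_inner_comm (D (0, 1) (D (0, 1) f) p)] at this; linarith
  have b1 := D_inner0 (D_smooth s1 (1, 0)) s2 a5 (0, 1) p
  have b2 := D_inner (D_smooth s2 (1, 0)) s2 (fun r => (H.d1 r).mul (H.d2 r)) a3 (1, 0) p
  rw [D_comm s1 (0, 1) (1, 0), c] at b1
  obtain ⟨ε, e0, e1, e2⟩ := H.frame p
  have k1 := ε.sum_inner_mul_inner (D (1, 0) (D (1, 0) f) p) (D (0, 1) (D (0, 1) f) p)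
  have k2 := ε.sum_inner_mul_inner (D (1, 0) (D (0, 1) f) p) (D (1, 0) (D (0, 1) f) p)
  simp only [Fin.sum_univ_three, e0, e1, e2, real_inner_smul_left, real_inner_smul_right, a1, a2,
    a3, a5, real_inner_comm (D (1, 0) (D (0, 1) f) p) (D (0, 1) f p), zero_mul, mul_zero,
    zero_add, real_inner_comm (n p)] at k1 k2
  have := (H.pos p.1).ne'
  have k3 : (W p.1)⁻¹ * (W p.1 * W' p.1) = W' p.1 := by field_simp
  rw [k3] at k2
  linarith

theorem Dat.det (H : Dat f n W W' W'') (p : P) (s : ℝ) (T : V →L[ℝ] V)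
    (h0 : T (EuclideanSpace.basisFun (Fin 3) ℝ 0) = s • D (1, 0) n p)
    (h1 : T (EuclideanSpace.basisFun (Fin 3) ℝ 1) = s • D (0, 1) n p)
    (h2 : T (EuclideanSpace.basisFun (Fin 3) ℝ 2) = n p) : |T.det| = s ^ 2 * |W'' p.1| := by
  obtain ⟨ε, e0, e1, e2⟩ := H.frame p
  have k := ε.toBasis.det_comp (T : V →ₗ[ℝ] V) (EuclideanSpace.basisFun (Fin 3) ℝ)
  have k2 : |ε.toBasis.det (EuclideanSpace.basisFun (Fin 3) ℝ)| = 1 := by
    rcases ε.det_to_matrix_orthonormalBasis_real (EuclideanSpace.basisFun (Fin 3) ℝ) with h | h <;>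
      simp [h]
  have k3 : |T.det| = |ε.toBasis.det ((T : V →ₗ[ℝ] V) ∘ EuclideanSpace.basisFun (Fin 3) ℝ)| := by
    rw [k, abs_mul, k2, mul_one]
  have s1 := D_smooth H.hf (1, 0)
  have s2 := D_smooth H.hf (0, 1)
  have a1 := D_inner0 H.hn s1 H.n1 (1, 0) p
  have a2 := D_inner0 H.hn s1 H.n1 (0, 1) p
  have a3 := D_inner0 H.hn s2 H.n2 (1, 0) p
  have a4 := D_inner0 H.hn s2 H.n2 (0, 1) p
  rw [D_comm H.hf (0, 1) (1, 0)] at a2
  have g := H.gauss p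
  have hW := (H.pos p.1).ne'
  rw [k3, Module.Basis.det_apply, Matrix.det_fin_three]
  simp only [Module.Basis.toMatrix_apply, Function.comp, ContinuousLinearMap.coe_coe, h0, h1, h2,
    OrthonormalBasis.coe_toBasis_repr_apply, OrthonormalBasis.repr_apply_apply, e0, e1, e2,
    real_inner_smul_left, real_inner_smul_right, real_inner_comm (n p) (D (1, 0) f p),
    real_inner_comm (n p) (D (0, 1) f p), H.n1, H.n2, H.nn,
    real_inner_comm (D (1, 0) n p), real_inner_comm (D (0, 1) n p)]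
  rw [eq_neg_of_add_eq_zero_left a1, eq_neg_of_add_eq_zero_left a2, eq_neg_of_add_eq_zero_left a3,
    eq_neg_of_add_eq_zero_left a4, ← abs_neg (W'' p.1), ← abs_of_nonneg (sq_nonneg s), ← abs_mul]
  congr 1
  field_simp
  linear_combination s ^ 2 * g

end Pool.Agent.H.MP_665542_gt
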