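import Pool.Agent.H.MP_665542_gt.A

namespace Pool.Agent.H.MP_665542_gt

open Set Filter Topology Real MeasureTheory
open scoped ContDiff RealInnerProductSpace

variable {f n : P → V} {l : ℝ}

abbrev DT (f n : P → V) (l : ℝ) : Prop :=
  Dat f n (fun r => l * (2 + cos r)) (fun r => -(l * sin r)) (fun r => -(l * cos r))

def Per (f : P → V) : Prop := ∀ r θ, f (r + 2 * π, θ) = f (r, θ) ∧ f (r, θ + 2 * π) = f (r, θ)

def S : Set V := {x | x 0 ∈ Icc (-(π / 2)) (π / 2) ∧ x 1 ∈ Icc 0 (2 * π) ∧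
  (x 2 ∈ Icc 0 1 ∨ cos (x 0) = 0)}

theorem cover (H : DT f n l) (hl : 0 < l) (hp : Per f)
    (hs : ⟪n (0, 0), D (1, 0) (D (1, 0) f) (0, 0)⟫ ≤ 0) (y : V) (hy : ‖y‖ ≤ 1) :
    ∃ x ∈ S, x 2 • n (x 0, x 1) = y := by
  have hf := H.hf
  by_cases hy0 : y = 0
  · refine ⟨0, ⟨⟨?_, ?_⟩, ⟨?_, ?_⟩, Or.inl ⟨?_, ?_⟩⟩, ?_⟩ <;> simp [hy0] <;> positivity
  have hc : Continuous fun p => ⟪f p, y⟫ := hf.continuous.inner continuous_const
  obtain ⟨p, ⟨hp1, hp2⟩, hmax⟩ := ((isCompact_Icc (a := -π) (b := π)).prod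
    (isCompact_Icc (a := 0) (b := 2 * π))).exists_isMaxOn
    ⟨(0, 0), ⟨⟨by linarith [pi_pos], pi_pos.le⟩, ⟨le_rfl, by positivity⟩⟩⟩ hc.continuousOn
  have hall : ∀ q : P, ⟪f q, y⟫ ≤ ⟪f p, y⟫ := fun q => by
    have h1 : Function.Periodic (fun r => f (r, q.2)) (2 * π) := fun r => (hp r q.2).1
    obtain ⟨r, hr, hr'⟩ := h1.exists_mem_Ico (by positivity) q.1 (-π)
    have h2 : Function.Periodic (fun θ => f (r, θ)) (2 * π) := fun θ => (hp r θ).2
    obtain ⟨θ, hθ, hθ'⟩ := h2.exists_mem_Ico₀ (by positivity) q.2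
    have := hmax (show (r, θ) ∈ _ from ⟨⟨hr.1, by linarith [hr.2]⟩, ⟨hθ.1, hθ.2.le⟩⟩)
    simp only [mem_setOf_eq] at this hr' hθ'
    rwa [← hθ', ← hr'] at this
  have hloc : ∀ e : P, IsLocalMax (fun s : ℝ => ⟪f (p + s • e), y⟫) 0 := fun e =>
    Eventually.of_forall fun s => by simpa using hall _
  have hd : ∀ (g : P → V), ContDiff ℝ ∞ g → ∀ (e : P) (s : ℝ),
      HasDerivAt (fun s : ℝ => ⟪g (p + s • e), y⟫) ⟪D e g (p + s • e), y⟫ s := fun g hg e s => by
    simpa using (D_line hg e p s).inner ℝ (hasDerivAt_const s y)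
  have h1 : ∀ e, ⟪D e f p, y⟫ = 0 := fun e => by
    simpa using (hloc e).hasDerivAt_eq_zero (hd f hf e 0)
  have h2 : ∀ e, ⟪D e (D e f) p, y⟫ ≤ 0 := fun e => by
    simpa using second_nonpos (hd f hf e) (hd _ (D_smooth hf e) e 0) (hloc e)
  obtain ⟨ε, e0, e1, e2⟩ := H.frame p
  obtain ⟨t, ht⟩ : ∃ t : ℝ, y = t • n p := by
    have := ε.sum_repr' y
    simp only [Fin.sum_univ_three, e0, e1, e2, real_inner_smul_left, h1, mul_zero, zero_smul,
      zero_add] at this
    exact ⟨_, this.symm⟩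
  have ht0 : t ≠ 0 := fun h => hy0 (by simp [ht, h])
  have ht1 : |t| ≤ 1 := by
    have := H.nn p
    rw [real_inner_self_eq_norm_sq] at this
    have h3 : ‖n p‖ = 1 := by nlinarith [norm_nonneg (n p)]
    rwa [ht, norm_smul, h3, mul_one] at hy
  have h3 : ∀ x z : ℝ, t * (x ^ 2 * ⟪n p, D (1, 0) (D (1, 0) f) p⟫ +
      2 * x * z * ⟪n p, D (1, 0) (D (0, 1) f) p⟫ + z ^ 2 * ⟪n p, D (0, 1) (D (0, 1) f) p⟫) ≤ 0 := by
    intro x z
    have h4 := h2 (x, z)
    have h6 := congrFun (D_comm hf (0, 1) (1, 0)) p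
    simp only [D_key hf] at h4 h6 ⊢
    have : ((x, z) : P) = x • (1, 0) + z • (0, 1) := by simp
    rw [this, real_inner_comm, ht] at h4
    simp only [map_add, map_smul, ContinuousLinearMap.add_apply, ContinuousLinearMap.smul_apply, h6,
      inner_add_right, real_inner_smul_left, real_inner_smul_right] at h4
    linarith
  have g := H.gauss p
  have hW := H.pos p.1
  have hcos : 0 ≤ cos p.1 := by
    have := discrim_le_zero (a := -t * ⟪n p, D (1, 0) (D (1, 0) f) p⟫)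
      (b := -t * 2 * ⟪n p, D (1, 0) (D (0, 1) f) p⟫) (c := -t * ⟪n p, D (0, 1) (D (0, 1) f) p⟫)
      fun x => by linarith [h3 x 1]
    unfold discrim at this
    have h5 : 0 ≤ (t ^ 2 * (l * (2 + cos p.1) * l)) * cos p.1 := by
      linear_combination (1 / 4) * this + t ^ 2 * g
    exact (mul_nonneg_iff_of_pos_left (by positivity)).1 h5
  have hr : p.1 ∈ Icc (-(π / 2)) (π / 2) := by
    constructor
    · by_contra h
      have := cos_neg_of_pi_div_two_lt_of_lt (x := -p.1) (by linarith [not_le.1 h])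
        (by linarith [hp1.1, pi_pos])
      rw [cos_neg] at this; linarith
    · by_contra h
      have := cos_neg_of_pi_div_two_lt_of_lt (x := p.1) (not_le.1 h) (by linarith [hp1.2, pi_pos])
      linarith
  refine ⟨!₂[p.1, p.2, t], ⟨hr, hp2, ?_⟩, by simp [ht]⟩
  by_cases hc0 : cos p.1 = 0
  · exact Or.inr hc0
  left
  have hr' : p.1 ∈ Ioo (-(π / 2)) (π / 2) :=
    ⟨lt_of_le_of_ne hr.1 fun h => hc0 (by rw [← h]; simp),
      lt_of_le_of_ne hr.2 fun h => hc0 (by rw [h]; simp)⟩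
  have hne : ∀ q : P, q.1 ∈ Ioo (-(π / 2)) (π / 2) → ⟪n q, D (1, 0) (D (1, 0) f) q⟫ ≠ 0 := by
    intro q hq h0
    have g := H.gauss q
    have := mul_pos (H.pos q.1) (mul_pos hl (cos_pos_of_mem_Ioo hq))
    rw [h0] at g
    nlinarith [sq_nonneg ⟪n q, D (1, 0) (D (0, 1) f) q⟫]
  have hL : ⟪n p, D (1, 0) (D (1, 0) f) p⟫ < 0 := by
    by_contra h
    have hcv : Convex ℝ (Ioo (-(π / 2)) (π / 2) ×ˢ (univ : Set ℝ)) :=
      (convex_Ioo _ _).prod convex_univ
    have hc2 : Continuous fun q => ⟪n q, D (1, 0) (D (1, 0) f) q⟫ :=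
      H.hn.continuous.inner (D_smooth (D_smooth hf _) _).continuous
    obtain ⟨q, hq, hq'⟩ := hcv.isPreconnected.intermediate_value (a := (0, 0)) (b := p)
      ⟨⟨by linarith [pi_pos], by positivity⟩, trivial⟩ ⟨hr', trivial⟩ hc2.continuousOn
      (show (0 : ℝ) ∈ _ from ⟨hs, not_lt.1 h⟩)
    exact hne q hq.1 hq'
  refine ⟨?_, (abs_le.1 ht1).2⟩
  have := h3 1 0
  change 0 ≤ t
  nlinarith

noncomputable def ph (l : ℝ) : Fin 3 → ℝ → ℝ :=
  ![(Icc (-(π / 2)) (π / 2)).indicator fun r => l * cos r, (Icc 0 (2 * π)).indicator fun _ => 1,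
    (Icc 0 1).indicator fun s => s ^ 2]

theorem ph_nonneg (hl : 0 < l) (i : Fin 3) (r : ℝ) : 0 ≤ ph l i r := by
  fin_cases i
  · exact indicator_nonneg (fun r hr => mul_nonneg hl.le (cos_nonneg_of_mem_Icc hr)) r
  · exact indicator_nonneg (fun _ _ => zero_le_one) r
  · exact indicator_nonneg (fun r _ => sq_nonneg r) r

theorem ph_int (hl : 0 < l) :
    ∫⁻ x : V, ENNReal.ofReal (∏ i, ph l i (x i)) = ENNReal.ofReal (l * (π * 4 / 3)) := by
  have hi : ∀ i, Integrable (ph l i) := fun i => by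
    fin_cases i <;>
      exact (integrable_indicator_iff measurableSet_Icc).2
        (Continuous.integrableOn_Icc (by fun_prop))
  have hm : ∀ i, Measurable (ph l i) := fun i => by
    fin_cases i <;> exact Measurable.indicator (by fun_prop) measurableSet_Icc
  have hm' : Measurable fun x : V => ENNReal.ofReal (∏ i, ph l i (x i)) :=
    (Finset.measurable_prod _ fun i _ => (hm i).comp (by fun_prop)).ennreal_ofReal
  rw [← (PiLp.volume_preserving_toLp (Fin 3)).lintegral_comp hm']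
  simp only
  rw [volume_pi, ← ofReal_integral_eq_lintegral_ofReal (Integrable.fintype_prod hi)
    (Eventually.of_forall fun x => Finset.prod_nonneg fun i _ => ph_nonneg hl i _)]
  congr 1
  rw [integral_fintype_prod_eq_prod, Fin.prod_univ_three]
  simp only [ph, Matrix.cons_val_zero, Matrix.cons_val_one, Matrix.cons_val,
    integral_indicator measurableSet_Icc, integral_Icc_eq_integral_Ioc]
  rw [← intervalIntegral.integral_of_le (by linarith [pi_pos]),
    ← intervalIntegral.integral_of_le (by positivity), ← intervalIntegral.integral_of_le zero_le_one]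
  simp
  ring

theorem core (H : DT f n l) (hl : 0 < l) (hl1 : l < 1) (hp : Per f)
    (hs : ⟪n (0, 0), D (1, 0) (D (1, 0) f) (0, 0)⟫ ≤ 0) : False := by
  set π₀ : V →L[ℝ] P := (EuclideanSpace.proj (0 : Fin 3)).prod (EuclideanSpace.proj (1 : Fin 3))
  set T : V → V →L[ℝ] V := fun x => x 2 • (fderiv ℝ n (π₀ x)).comp π₀ +
    (EuclideanSpace.proj (2 : Fin 3) : V →L[ℝ] ℝ).smulRight (n (π₀ x)) with hT
  have hd : ∀ x, HasFDerivAt (fun x : V => x 2 • n (π₀ x)) (T x) x := fun x =>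
    (EuclideanSpace.proj (2 : Fin 3) : V →L[ℝ] ℝ).hasFDerivAt.smul
      ((H.hn.differentiable (by simp) _).hasFDerivAt.comp x π₀.hasFDerivAt)
  have hdet : ∀ x, |(T x).det| = x 2 ^ 2 * |-(l * cos (x 0))| := fun x =>
    H.det (π₀ x) (x 2) (T x) (by simp [hT, π₀, D]) (by simp [hT, π₀, D])
      (by simp [hT, π₀, Prod.mk_zero_zero])
  have hS : MeasurableSet S := by
    have c : ∀ i, Measurable fun x : V => x i := fun i => by fun_prop
    exact (c 0 measurableSet_Icc).inter ((c 1 measurableSet_Icc).inter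
      ((c 2 measurableSet_Icc).union (measurableSet_eq_fun (by fun_prop) measurable_const)))
  have h1 := addHaar_image_le_lintegral_abs_det_fderiv volume hS
    fun x _ => (hd x).hasFDerivWithinAt
  have h2 : Metric.closedBall (0 : V) 1 ⊆ (fun x : V => x 2 • n (π₀ x)) '' S := fun y hy =>
    cover H hl hp hs y (by simpa using hy)
  have h3 : ∫⁻ x in S, ENNReal.ofReal |(T x).det| ≤ ∫⁻ x : V, ENNReal.ofReal (∏ i, ph l i (x i)) := by
    refine le_trans (setLIntegral_mono' hS fun x hx => ENNReal.ofReal_le_ofReal ?_)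
      (setLIntegral_le_lintegral S _)
    rw [hdet]
    obtain ⟨a, b, c | c⟩ := hx
    · rw [Fin.prod_univ_three, abs_neg, abs_of_nonneg (mul_nonneg hl.le (cos_nonneg_of_mem_Icc a))]
      simp only [ph, Matrix.cons_val_zero, Matrix.cons_val_one, Matrix.cons_val,
        indicator_of_mem a, indicator_of_mem b, indicator_of_mem c]
      linarith
    · simpa [c] using Finset.prod_nonneg fun i _ => ph_nonneg hl i (x i)
  have h4 := (measure_mono h2).trans (h1.trans h3)
  rw [ph_int hl, EuclideanSpace.volume_closedBall_fin_three] at h4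
  simp only [ENNReal.ofReal_one, one_pow, one_mul] at h4
  rw [ENNReal.ofReal_le_ofReal_iff (by positivity)] at h4
  nlinarith [pi_pos]

noncomputable def cr (a b : V) : V :=
  !₂[a 1 * b 2 - a 2 * b 1, a 2 * b 0 - a 0 * b 2, a 0 * b 1 - a 1 * b 0]

theorem inn (a b : V) : ⟪a, b⟫ = a 0 * b 0 + a 1 * b 1 + a 2 * b 2 := by
  simp [PiLp.inner_apply, Fin.sum_univ_three, mul_comm]

theorem no_imm (hl : 0 < l) (hl1 : l < 1) (hf : ContDiff ℝ ∞ f) (hp : Per f)
    (hi : ∀ p e : P, ‖fderiv ℝ f p e‖ ^ 2 = e.1 ^ 2 + (l * (2 + cos p.1)) ^ 2 * e.2 ^ 2) :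
    False := by
  have hW : ∀ r, 0 < l * (2 + cos r) := fun r => mul_pos hl (by linarith [neg_one_le_cos r])
  have e : ∀ p, ⟪D (1, 0) f p, D (1, 0) f p⟫ = 1 := fun p => by
    rw [real_inner_self_eq_norm_sq]; simpa [D] using hi p (1, 0)
  have g : ∀ p, ⟪D (0, 1) f p, D (0, 1) f p⟫ = l * (2 + cos p.1) * (l * (2 + cos p.1)) :=
    fun p => by rw [real_inner_self_eq_norm_sq, ← sq]; simpa [D] using hi p (0, 1)
  have ff : ∀ p, ⟪D (1, 0) f p, D (0, 1) f p⟫ = 0 := fun p => by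
    have h1 := hi p ((1, 0) + (0, 1))
    rw [map_add, norm_add_sq_real, hi, hi] at h1
    simp at h1
    simpa [D] using h1
  have key : ∀ σ : ℝ, σ ^ 2 = 1 →
      DT f (fun p => (σ * (l * (2 + cos p.1))⁻¹) • cr (D (1, 0) f p) (D (0, 1) f p)) l := by
    intro σ hσ
    refine ⟨hf, ?_, fun r => ?_, fun r => ?_, hW, e, ff, g, fun p => ?_, fun p => ?_, fun p => ?_⟩
    · have s1 := contDiff_euclidean.1 (D_smooth hf (1, 0))
      have s2 := contDiff_euclidean.1 (D_smooth hf (0, 1))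
      refine ContDiff.smul (contDiff_const.mul (ContDiff.inv (by fun_prop) fun p => (hW _).ne')) ?_
      refine contDiff_euclidean.2 fun i => ?_
      fin_cases i <;> exact ((s1 _).mul (s2 _)).sub ((s1 _).mul (s2 _))
    · simpa using ((hasDerivAt_cos r).const_add 2).const_mul l
    · exact ((hasDerivAt_sin r).const_mul l).neg
    · rw [real_inner_smul_left, inn]; simp [cr]; ring_nf; simp
    · rw [real_inner_smul_left, inn]; simp [cr]; ring_nf; simp
    · have h1 := e p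
      have h2 := ff p
      have h3 := g p
      have h4 := (hW p.1).ne'
      rw [real_inner_smul_left, real_inner_smul_right]
      generalize D (1, 0) f p = a at *
      generalize D (0, 1) f p = b at *
      generalize l * (2 + cos p.1) = w at *
      have : ⟪cr a b, cr a b⟫ = ⟪a, a⟫ * ⟪b, b⟫ - ⟪a, b⟫ ^ 2 := by
        simp only [inn, cr]; simp; ring
      rw [this, h1, h2, h3]
      field_simp
      linear_combination w ^ 2 * hσ
  rcases le_total ⟪cr (D (1, 0) f (0, 0)) (D (0, 1) f (0, 0)), D (1, 0) (D (1, 0) f) (0, 0)⟫ 0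
    with h | h
  · refine core (key 1 (by norm_num)) hl hl1 hp ?_
    rw [real_inner_smul_left]
    exact mul_nonpos_of_nonneg_of_nonpos (by have := hW 0; positivity) h
  · refine core (key (-1) (by norm_num)) hl hl1 hp ?_
    rw [real_inner_smul_left]
    have := inv_pos.2 (hW 0)
    exact mul_nonpos_of_nonpos_of_nonneg (by simp only; linarith) h

noncomputable def f₀ (p : P) : V := !₂[(2 + cos p.1) * cos p.2, (2 + cos p.1) * sin p.2, sin p.1]

theorem f₀_smooth : ContDiff ℝ ∞ f₀ := by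
  refine contDiff_euclidean.2 fun i => ?_
  fin_cases i <;> simp [f₀] <;> fun_prop

theorem f₀_norm (p e : P) : ‖fderiv ℝ f₀ p e‖ ^ 2 = e.1 ^ 2 + (2 + cos p.1) ^ 2 * e.2 ^ 2 := by
  have h := D_line f₀_smooth e p 0
  have h1 : HasDerivAt (fun s : ℝ => (p + s • e).1) e.1 0 := by
    simpa using ((hasDerivAt_id (0 : ℝ)).mul_const e.1).const_add p.1
  have h2 : HasDerivAt (fun s : ℝ => (p + s • e).2) e.2 0 := by
    simpa using ((hasDerivAt_id (0 : ℝ)).mul_const e.2).const_add p.2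
  have k : ∀ i, HasDerivAt (fun s : ℝ => f₀ (p + s • e) i) (D e f₀ (p + (0 : ℝ) • e) i) 0 :=
    fun i => (EuclideanSpace.proj i : V →L[ℝ] ℝ).hasFDerivAt.comp_hasDerivAt (0 : ℝ) h
  have k0 := (k 0).unique ((h1.cos.const_add 2).mul h2.cos)
  have k1 := (k 1).unique ((h1.cos.const_add 2).mul h2.sin)
  have k2 := (k 2).unique h1.sin
  simp only [zero_smul, add_zero, D] at k0 k1 k2
  rw [← real_inner_self_eq_norm_sq, inn, k0, k1, k2]
  linear_combination (sin p.1 ^ 2 * e.1 ^ 2 + (2 + cos p.1) ^ 2 * e.2 ^ 2) * sin_sq_add_cos_sq p.2 +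
    e.1 ^ 2 * sin_sq_add_cos_sq p.1

theorem f₀_inj (p q : P) (h : f₀ p = f₀ q) :
    ∃ m k : ℤ, q.1 = p.1 + m * (2 * π) ∧ q.2 = p.2 + k * (2 * π) := by
  have h0 : (2 + cos p.1) * cos p.2 = (2 + cos q.1) * cos q.2 := by simpa [f₀] using congr($h 0)
  have h1 : (2 + cos p.1) * sin p.2 = (2 + cos q.1) * sin q.2 := by simpa [f₀] using congr($h 1)
  have h2 : sin p.1 = sin q.1 := by simpa [f₀] using congr($h 2)
  have hp : 0 < 2 + cos p.1 := by linarith [neg_one_le_cos p.1]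
  have hq : 0 < 2 + cos q.1 := by linarith [neg_one_le_cos q.1]
  have h3 : 2 + cos p.1 = 2 + cos q.1 := by
    refine (sq_eq_sq₀ hp.le hq.le).1 ?_
    linear_combination ((2 + cos p.1) * cos p.2 + (2 + cos q.1) * cos q.2) * h0 +
      ((2 + cos p.1) * sin p.2 + (2 + cos q.1) * sin q.2) * h1 -
      (2 + cos p.1) ^ 2 * sin_sq_add_cos_sq p.2 + (2 + cos q.1) ^ 2 * sin_sq_add_cos_sq q.2
  rw [← h3] at h0 h1
  have key : ∀ a b : ℝ, cos a = cos b → sin a = sin b → ∃ m : ℤ, b = a + m * (2 * π) := by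
    intro a b hc hs
    obtain ⟨m, hm⟩ := (cos_eq_one_iff (b - a)).1 (by
      rw [cos_sub, hc, hs]; linear_combination sin_sq_add_cos_sq b)
    exact ⟨m, by linarith⟩
  obtain ⟨m, hm⟩ := key p.1 q.1 (by linarith) h2
  obtain ⟨k, hk⟩ := key p.2 q.2 (mul_left_cancel₀ hp.ne' h0) (mul_left_cancel₀ hp.ne' h1)
  exact ⟨m, k, hm, hk⟩

end Pool.Agent.H.MP_665542_gt
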